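import Mathlib
import Pool.Agent.MP_708e57_al.cf.Sharp

namespace Pool.Agent.Results.MP_708e57_al.Asymptotic

open Pool.Agent.MP_708e57_al

universe u

/-- `h = (1, h_1, ..., h_{d-1}, 1, 0, ...)` is symmetric and every inner entry `h_i` is at least
`c` times `alpha i h_{i+1} + alpha (d-i) h_{i-1}`. -/
def Balanced (d : ℕ) (c : ℝ) (h : ℕ → ℕ) : Prop :=
  h 0 = 1 ∧ (∀ i j, i + j = d → h i = h j) ∧ (∀ i, d < i → h i = 0) ∧
    ∀ i, 1 ≤ i → i < d → c * (alpha i (h (i + 1)) + alpha (d - i) (h (i - 1))) ≤ h i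

/-- Asymptotically sharp description of the Gorenstein sequences of socle degree `d`. -/
theorem result (d : ℕ) (ε : ℝ) (hε : 0 < ε) : ∃ N : ℕ, ∀ (K : Type u) [Field K],
    {h | IsGorSeq K d h ∧ N ≤ h 1} ∈
      Set.Icc {h | Balanced d (1 + ε) h ∧ N ≤ h 1} {h | Balanced d (1 - ε) h ∧ N ≤ h 1} := by
  obtain ⟨N, hN⟩ := sharp_suff.{u} d ε hε
  obtain ⟨N', hN'⟩ := sharp_nec.{u} d ε hε
  refine ⟨N + N', fun K _ => ⟨fun h ⟨⟨h0, h1, h2, h3⟩, h4⟩ =>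
    ⟨hN K h h0 h1 h2 (by omega) h3, h4⟩, fun h ⟨hG, h4⟩ => ?_⟩⟩
  exact ⟨⟨hG.basic.1, hG.basic.2.1, hG.basic.2.2, hN' K h hG (by omega)⟩, h4⟩

end Pool.Agent.Results.MP_708e57_al.Asymptotic
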