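import Mathlib
import Pool.Agent.MP_708e57_al.c4.Final

namespace Pool.Agent.Results.MP_708e57_al.CodimFour

open Pool.Agent.MP_708e57_al

universe u

/-- In characteristic zero the Gorenstein sequences with `h 1 ≤ 4` are the SI-sequences. -/
theorem result (K : Type u) [Field K] [CharZero K] (d : ℕ) (h : ℕ → ℕ) (h4 : h 1 ≤ 4) :
    IsGorSeq K d h ↔ (∀ i ≤ d, h i = h (d - i)) ∧ (∀ i, d < i → h i = 0) ∧
      (∀ i, 2 * (i + 1) ≤ d → h i ≤ h (i + 1)) ∧
      IsOSeq fun i => if i = 0 then h 0 else if 2 * i ≤ d then h i - h (i - 1) else 0 :=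
  c4.gor_iff_SI K d h h4

end Pool.Agent.Results.MP_708e57_al.CodimFour
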