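import Mathlib
import Pool.Agent.MP_708e57_al.allc.MinC

namespace Pool.Agent.Results.MP_708e57_al.MinimalAllFields

open Pool.Agent.MP_708e57_al

universe u

/-- The sequences lying above a Gorenstein sequence of given codimension and socle degree,
over every field. -/
theorem result (K : Type u) [Field K] (d r : ℕ) (hd : 2 ≤ d) (hr : 2 ≤ r) (g : ℕ → ℕ) :
    (∃ h, IsGorSeq K d h ∧ h 1 = r ∧ ∀ i, h i ≤ g i) ↔
      ∃ t s, IsOSeq t ∧ extSeq d t s 1 = r ∧ ∀ i, extSeq d t s i ≤ g i :=
  AllMin.minimalAll K d r hd hr g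

end Pool.Agent.Results.MP_708e57_al.MinimalAllFields
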